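import Pool.Agent.R602.IU.Ell
import Pool.Agent.R602.IU.Omc
import Pool.Agent.R602.IU.ConP
import Pool.Agent.R602.IU.Ama
import Pool.Agent.R602.IU.Cmp
import Pool.Agent.R602.IU.Neu
import Pool.Agent.R602.IU.Val
import Pool.Agent.R602.IU.Rea
import Pool.Agent.R602.IU.Uuv
import Pool.Agent.R602.IU.Uuf
import Pool.Agent.R602.IU.Zed
import Pool.Agent.R602.IU.Nuf
import Pool.Agent.R602.IU.Clo650
import Pool.Agent.R602.IU.Fin

/-!
# An idempotent ultrafilter on `{1, 2, 3, ...}` does not suffice to extend idempotent filters

The transitive models `M` of ZF (`IsZF`) are defined in `Pool.Agent.W868.Defs`; filters (`FilterIn`),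
idempotent filters (`Idem`) and ultrafilters (`Ultra`) on `{1, 2, 3, ...}` in `M` are defined in
`Pool.Agent.R602.IU.Stat`.

The model is a symmetric submodel of a generic extension; the conditions are finite sets of indices of
Cohen reals, finite partial functions, and idempotent ultrafilters in the extension with these reals.
-/

namespace Pool.Agent.Results.MP_257b8b_lc.IdempotentFilterNotExtending

open Pool.Agent.W868 Pool.Agent.R602.IU

/-- There is a countable transitive model `M` of ZF that has an idempotent ultrafilter on
`{1, 2, 3, ...}` and an idempotent filter on `{1, 2, 3, ...}` that is not contained in any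
ultrafilter. -/
theorem result : ∃ M : Set ZFSet.{0}, M.Countable ∧ IsZF M ∧ (∃ U, Ultra M U ∧ Idem M U) ∧
    ∃ F, FilterIn M F ∧ Idem M F ∧ ¬ ∃ U, Ultra M U ∧ F ⊆ U := by
  have hE : S_ELL := ell_main
  have hO : S_OMC := omc_main
  have hC : S_CON := con_main
  have hA : S_AMA := ama_main hE hO hC
  have hM : S_CMP := cmp_main hA
  have hN : S_NEU := neu_main
  have hV : S_VAL := val_main
  have hR : S_REA := rea_main hV hM hN
  have hU : S_UUV := uuv_main hM
  have hF : S_UUF := uuf_main hO hV hM hR hU
  have hZ : S_ZED := zed_main hM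
  have hNF : S_NUF := nuf_main hM hN hZ
  exact fin_main hF hZ hNF clo_main

end Pool.Agent.Results.MP_257b8b_lc.IdempotentFilterNotExtending
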